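import Pool.Agent.K1H22.SR.Stm2

set_option autoImplicit false

/-! # Project SR2: Parikh's theorem for one variable (by helper7) -/

namespace Pool.Agent.K1H7.SR2

open Pool.Agent.K1H22.SR2 Set
open scoped Pointwise

section

variable {M : Type} [AddCommMonoid M] {L : Set (M × ℕ)}

/-- the multisets of productions of a derivation -/
def MS (L : Set (M × ℕ)) (k : ℕ) (v : M) : Prop :=
  ∃ s : Multiset (M × ℕ), (∀ x ∈ s, x ∈ L) ∧ s.sum.2 + k = Multiset.card s ∧ v = s.sum.1

theorem MS_list (l : List M) (h : ∀ v ∈ l, MS L 1 v) : MS L l.length l.sum := by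
  induction l with
  | nil => exact ⟨0, by simp, by simp, by simp⟩
  | cons a l ih =>
    obtain ⟨s, h1, h2, h3⟩ := h a (by simp)
    obtain ⟨t, k1, k2, k3⟩ := ih fun v hv => h v (by simp [hv])
    refine ⟨s + t, ?_, ?_, ?_⟩
    · intro x hx
      rcases Multiset.mem_add.1 hx with hx | hx
      · exact h1 x hx
      · exact k1 x hx
    · rw [Multiset.sum_add, Multiset.card_add, Prod.snd_add, List.length_cons]
      omega
    · rw [Multiset.sum_add, Prod.fst_add, List.sum_cons, h3, k3]

theorem MS_of_One {v : M} (h : One L v) : MS L 1 v := by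
  induction h with
  | mk x l hx _ hl ih =>
    obtain ⟨s, h1, h2, h3⟩ := MS_list l ih
    refine ⟨x ::ₘ s, ?_, ?_, ?_⟩
    · intro y hy
      rcases Multiset.mem_cons.1 hy with rfl | hy
      · exact hx
      · exact h1 y hy
    · rw [Multiset.sum_cons, Multiset.card_cons, Prod.snd_add]
      omega
    · rw [Multiset.sum_cons, Prod.fst_add, h3]

/-- partial derivations -/
def Vd (L : Set (M × ℕ)) (p : M × ℕ) : Prop :=
  ∀ d : List M, d.length = p.2 → (∀ u ∈ d, One L u) → One L (p.1 + d.sum)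

theorem One_of_Vd : ∀ (N : ℕ) (s : Multiset (M × ℕ)), Multiset.card s = N + 1 →
    (∀ p ∈ s, Vd L p) → s.sum.2 = N → One L s.sum.1 := by
  intro N
  induction N with
  | zero =>
    intro s hs h1 h2
    obtain ⟨a, rfl⟩ := Multiset.card_eq_one.1 hs
    rw [Multiset.sum_singleton] at h2 ⊢
    have := h1 a (Multiset.mem_singleton_self a) [] (by simp [h2]) (by simp)
    simpa using this
  | succ N ih =>
    intro s hs h1 h2
    have hsnd : ∀ t : Multiset (M × ℕ), t.sum.2 = (t.map Prod.snd).sum := by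
      intro t
      exact map_multiset_sum (AddMonoidHom.snd M ℕ) t
    have e1 : ∃ p ∈ s, p.2 = 0 := by
      by_contra hcon
      push Not at hcon
      have h3 : ∀ x ∈ s.map Prod.snd, 1 ≤ x := by
        intro x hx
        obtain ⟨p, hp, rfl⟩ := Multiset.mem_map.1 hx
        exact Nat.one_le_iff_ne_zero.2 (hcon p hp)
      have h4 := Multiset.card_nsmul_le_sum h3
      rw [Multiset.card_map, ← hsnd, h2, hs, smul_eq_mul] at h4
      omega
    obtain ⟨p, hp, hp0⟩ := e1
    obtain ⟨s1, rfl⟩ := Multiset.exists_cons_of_mem hp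
    have e2 : ∃ q ∈ s1, q.2 ≠ 0 := by
      by_contra hcon
      push Not at hcon
      have h3 : (s1.map Prod.snd).sum = 0 := by
        apply Multiset.sum_eq_zero
        intro x hx
        obtain ⟨q, hq, rfl⟩ := Multiset.mem_map.1 hx
        exact hcon q hq
      rw [Multiset.sum_cons, Prod.snd_add, hsnd, h3, hp0] at h2
      omega
    obtain ⟨q, hq, hq0⟩ := e2
    obtain ⟨t, rfl⟩ := Multiset.exists_cons_of_mem hq
    obtain ⟨v, m⟩ := q
    obtain ⟨m, rfl⟩ := Nat.exists_eq_succ_of_ne_zero hq0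
    have hpo : One L p.1 := by
      have := h1 p (Multiset.mem_cons_self _ _) [] (by simp [hp0]) (by simp)
      simpa using this
    have hqv := h1 (v, m.succ) (Multiset.mem_cons_of_mem (Multiset.mem_cons_self _ _))
    have h3 := ih ((p.1 + v, m) ::ₘ t) (by
      rw [Multiset.card_cons] at hs ⊢
      rw [Multiset.card_cons] at hs
      omega) (by
      intro r hr
      rcases Multiset.mem_cons.1 hr with rfl | hr
      · intro d hd hd2
        have h4 := hqv (p.1 :: d) (by simp [hd]) (by
          intro u hu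
          rcases List.mem_cons.1 hu with rfl | hu
          · exact hpo
          · exact hd2 u hu)
        rw [List.sum_cons] at h4
        have h5 : v + (p.1 + d.sum) = p.1 + v + d.sum := by
          rw [← add_assoc, add_comm v]
        rw [← h5]
        exact h4
      · exact h1 r (Multiset.mem_cons_of_mem (Multiset.mem_cons_of_mem hr))) (by
      rw [Multiset.sum_cons, Prod.snd_add]
      rw [Multiset.sum_cons, Multiset.sum_cons, Prod.snd_add, Prod.snd_add, hp0] at h2
      simp only at h2 ⊢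
      omega)
    rw [Multiset.sum_cons, Prod.fst_add] at h3
    rw [Multiset.sum_cons, Multiset.sum_cons, Prod.fst_add, Prod.fst_add, ← add_assoc]
    exact h3

theorem One_iff (v : M) : One L v ↔ MS L 1 v := by
  constructor
  · exact MS_of_One
  · rintro ⟨s, h1, h2, rfl⟩
    refine One_of_Vd s.sum.2 s h2.symm ?_ rfl
    intro p hp d hd hd2
    exact Pool.Agent.K1H22.SR2.One.mk p d (h1 p hp) hd2 hd

end

theorem t_ONE : S_ONE := by
  intro M _ _ L hL
  have h1 : IsSemilinearSet ((((0 : M × ℕ), (1 : ℕ)) : (M × ℕ) × ℕ) +ᵥ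
      ((AddMonoidHom.inl (M × ℕ) ℕ) '' L)) := (hL.image (AddMonoidHom.inl (M × ℕ) ℕ)).vadd _
  have h2 := h1.closure
  have h3 : IsSemilinearSet {z : (M × ℕ) × ℕ |
      1 + ((AddMonoidHom.snd M ℕ).comp (AddMonoidHom.fst (M × ℕ) ℕ)) z =
        0 + (AddMonoidHom.snd (M × ℕ) ℕ) z} := isSemilinearSet_setOfPred_eq 1 0 _ _
  have h4 := (h2.inter h3).image ((AddMonoidHom.fst M ℕ).comp (AddMonoidHom.fst (M × ℕ) ℕ))
  have key : ∀ z : (M × ℕ) × ℕ, z ∈ AddSubmonoid.closure ((((0 : M × ℕ), (1 : ℕ)) :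
      (M × ℕ) × ℕ) +ᵥ ((AddMonoidHom.inl (M × ℕ) ℕ) '' L)) ↔
      ∃ s : Multiset (M × ℕ), (∀ x ∈ s, x ∈ L) ∧ z = (s.sum, Multiset.card s) := by
    intro z
    constructor
    · intro hz
      induction hz using AddSubmonoid.closure_induction with
      | mem x hx =>
        obtain ⟨y, hy, rfl⟩ := hx
        obtain ⟨w, hw, rfl⟩ := hy
        refine ⟨{w}, ?_, ?_⟩
        · intro x hx
          rw [Multiset.mem_singleton.1 hx]
          exact hw
        · simp
      | zero => exact ⟨0, by simp, rfl⟩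
      | add x y _ _ hx hy =>
        obtain ⟨s, k1, k2⟩ := hx
        obtain ⟨t, m1, m2⟩ := hy
        refine ⟨s + t, ?_, ?_⟩
        · intro x hx
          rcases Multiset.mem_add.1 hx with hx | hx
          · exact k1 x hx
          · exact m1 x hx
        · rw [k2, m2, Multiset.sum_add, Multiset.card_add]
          rfl
    · rintro ⟨s, hs, rfl⟩
      induction s using Multiset.induction_on with
      | empty => exact AddSubmonoid.zero_mem _
      | cons a s ih =>
        have e1 : (((a ::ₘ s).sum, Multiset.card (a ::ₘ s)) : (M × ℕ) × ℕ) =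
            (a, 1) + (s.sum, Multiset.card s) := by
          rw [Multiset.sum_cons, Multiset.card_cons, add_comm (Multiset.card s) 1]
          rfl
        rw [e1]
        refine AddSubmonoid.add_mem _ (AddSubmonoid.subset_closure ?_)
          (ih fun x hx => hs x (Multiset.mem_cons_of_mem hx))
        refine ⟨(a, 0), ⟨a, hs a (Multiset.mem_cons_self _ _), rfl⟩, ?_⟩
        simp
  have h5 : {v : M | One L v} = ((AddMonoidHom.fst M ℕ).comp (AddMonoidHom.fst (M × ℕ) ℕ)) ''
      ((AddSubmonoid.closure ((((0 : M × ℕ), (1 : ℕ)) :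
      (M × ℕ) × ℕ) +ᵥ ((AddMonoidHom.inl (M × ℕ) ℕ) '' L)) : Set ((M × ℕ) × ℕ)) ∩
      {z : (M × ℕ) × ℕ |
      1 + ((AddMonoidHom.snd M ℕ).comp (AddMonoidHom.fst (M × ℕ) ℕ)) z =
        0 + (AddMonoidHom.snd (M × ℕ) ℕ) z}) := by
    ext v
    constructor
    · intro hv
      obtain ⟨s, k1, k2, k3⟩ := (One_iff v).1 hv
      refine ⟨(s.sum, Multiset.card s), ⟨(key _).2 ⟨s, k1, rfl⟩, ?_⟩, k3.symm⟩
      show 1 + s.sum.2 = 0 + Multiset.card s
      omega
    · rintro ⟨z, ⟨hz1, hz2⟩, rfl⟩
      obtain ⟨s, k1, rfl⟩ := (key z).1 hz1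
      have hz3 : 1 + s.sum.2 = 0 + Multiset.card s := hz2
      exact (One_iff _).2 ⟨s, k1, by omega, rfl⟩
  rw [h5]
  exact h4

end Pool.Agent.K1H7.SR2
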